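import Pool.Agent.EGF.StmtsS

set_option autoImplicit false

namespace Pool.Agent.EGF.H82

open Pool.Agent.EGF Finset

/-- **CON**: concentration. -/
theorem con : ConStmt := by
  classical
  intro I S f M ι hι hM hf hsum hhigh
  set τ := √ι with hτ
  have hτ0 : 0 < τ := Real.sqrt_pos.mpr hι
  have hτ2 : τ * τ = ι := Real.mul_self_sqrt hι.le
  have key : ∑ p ∈ S, f p ≤ ∑ p ∈ S, ((M + ι) + (if M + ι < f p then (1 : ℝ) else 0) -
      (τ + ι) * (if f p < M - τ then (1 : ℝ) else 0)) := by
    refine Finset.sum_le_sum (fun p hp => ?_)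
    have h1 := hf p hp
    by_cases hl : f p < M - τ
    · rw [if_pos hl]
      split_ifs <;> linarith
    · rw [if_neg hl]
      by_cases hh : M + ι < f p
      · rw [if_pos hh]; linarith [h1.2]
      · rw [if_neg hh]; push Not at hh; linarith
  have e : ∑ p ∈ S, ((M + ι) + (if M + ι < f p then (1 : ℝ) else 0) -
      (τ + ι) * (if f p < M - τ then (1 : ℝ) else 0)) =
      (M + ι) * S.card + ((S.filter fun p => M + ι < f p).card : ℝ) -
        (τ + ι) * ((S.filter fun p => f p < M - τ).card : ℝ) := by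
    rw [Finset.sum_sub_distrib, Finset.sum_add_distrib, Finset.sum_const, nsmul_eq_mul,
      ← Finset.mul_sum, Finset.sum_boole, Finset.sum_boole]
    ring
  rw [e] at key
  set b : ℝ := ((S.filter fun p => f p < M - τ).card : ℝ) with hb
  have hb0 : 0 ≤ b := by positivity
  have h2 : (τ + ι) * b ≤ 5 * ι * S.card := by linarith
  have h3 : τ * b ≤ τ * (5 * τ * S.card) := by
    have : τ * (5 * τ * S.card) = 5 * ι * S.card := by rw [← hτ2]; ring
    rw [this]
    nlinarith [mul_nonneg hι.le hb0]
  exact le_of_mul_le_mul_left h3 hτ0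

end Pool.Agent.EGF.H82
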